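import Pool.Agent.Helper32.HB.NmB

/-! # HB module Nam: names of points -/

set_option autoImplicit false

namespace Pool.Agent.Helper32.HB

open Set Filter Pool.Agent.Helper33.HM Pool.Agent.Helper33.HMG

universe u

variable {P : Type u} [Preorder P]

theorem mem_memv {σ τ : Nm P} {p : P} : p ∈ memv σ τ ↔ fmem σ τ p := Iff.rfl

/-! ### natural numbers -/

theorem nam_mem_nat {n : ℕ} {x : ZFSet.{0}} :
    x ∈ ZFSet.mk (PSet.ofNat n) ↔ ∃ m, m < n ∧ x = ZFSet.mk (PSet.ofNat m) := by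
  induction n with
  | zero =>
    constructor
    · intro h
      exact absurd h (ZFSet.notMem_empty x)
    · rintro ⟨m, hm, -⟩
      omega
  | succ n ih =>
    have e : ZFSet.mk (PSet.ofNat (n + 1)) =
        insert (ZFSet.mk (PSet.ofNat n)) (ZFSet.mk (PSet.ofNat n)) := rfl
    rw [e, ZFSet.mem_insert_iff, ih]
    constructor
    · rintro (h | ⟨m, hm, rfl⟩)
      · exact ⟨n, by omega, h⟩
      · exact ⟨m, by omega, rfl⟩
    · rintro ⟨m, hm, rfl⟩
      rcases Nat.lt_succ_iff_lt_or_eq.1 hm with h | h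
      · exact Or.inr ⟨m, h, rfl⟩
      · exact Or.inl (by rw [h])

theorem nam_nat_inj {m n : ℕ} (h : ZFSet.mk (PSet.ofNat.{0} m) = ZFSet.mk (PSet.ofNat n)) :
    m = n := by
  rcases lt_trichotomy m n with h1 | h1 | h1
  · have h2 : ZFSet.mk (PSet.ofNat.{0} m) ∈ ZFSet.mk (PSet.ofNat.{0} n) := nam_mem_nat.2 ⟨m, h1, rfl⟩
    rw [h] at h2
    exact absurd h2 (ZFSet.mem_irrefl _)
  · exact h1
  · have h2 : ZFSet.mk (PSet.ofNat.{0} n) ∈ ZFSet.mk (PSet.ofNat.{0} m) := nam_mem_nat.2 ⟨n, h1, rfl⟩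
    rw [h] at h2
    exact absurd h2 (ZFSet.mem_irrefl _)

theorem nam_mem_omega {x : ZFSet.{0}} :
    x ∈ ZFSet.omega ↔ ∃ n, x = ZFSet.mk (PSet.ofNat n) := by
  constructor
  · intro h
    obtain ⟨y, rfl⟩ := Quotient.exists_rep x
    obtain ⟨⟨n⟩, hn⟩ : y ∈ PSet.omega := h
    exact ⟨n, ZFSet.sound hn⟩
  · rintro ⟨n, rfl⟩
    exact ZFSet.mk_mem_iff.2 ⟨⟨n⟩, PSet.Equiv.rfl⟩

variable [OrderTop P]

theorem nam_feq_chk {x y : PSet.{0}} {p : P} (h : feq (chk x) (chk y) p) : PSet.Equiv x y := by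
  induction x generalizing y p with
  | mk α A ih =>
    cases y with
    | mk β B =>
      rw [feq_iff] at h
      constructor
      · intro a
        obtain ⟨s, -, b, -, hb⟩ := h.1 ⟨a⟩ p le_rfl le_top
        exact ⟨b.down, ih a hb⟩
      · intro b
        obtain ⟨s, -, a, -, ha⟩ := h.2 ⟨b⟩ p le_rfl le_top
        exact ⟨a.down, ih a.down ha⟩

theorem nN_inj {m n : ℕ} {p : P} (h : feq (nN m) (nN n) p) : m = n :=
  nam_nat_inj (ZFSet.sound (nam_feq_chk h))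

theorem fmem_nN_nm {x : ℕ → RO P} {n : ℕ} {p : P} : fmem (nN n) (nm x) p ↔ p ∈ x n := by
  constructor
  · intro h
    refine RO.mem_reg fun q hq => ?_
    obtain ⟨s, hs, ⟨⟨m, r⟩, hr⟩, h1, h2⟩ := h q hq
    have hmn : n = m := nN_inj h2
    subst hmn
    exact ⟨s, hs, RO.mem_lower h1 hr⟩
  · intro h q hq
    exact ⟨q, le_rfl, ⟨(n, q), RO.mem_lower hq h⟩, le_rfl, feq_refl _ _⟩

/-- The point named by `nm x` is `x`. -/
theorem rl_nm (x : ℕ → RO P) : rl (nm x) = x := by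
  funext n
  apply RO.ext'
  intro p
  exact fmem_nN_nm

theorem cdV_apply (F : ℕ → List Bool → RO P) (n : ℕ) (σ : List Bool) :
    cdV F (Nat.pair n (Encodable.encode σ)) = F n σ := by
  have h : ∃ x : ℕ × List Bool, Nat.pair n (Encodable.encode σ) =
      Nat.pair x.1 (Encodable.encode x.2) := ⟨(n, σ), rfl⟩
  unfold cdV
  rw [dif_pos h]
  have h1 := Nat.pair_eq_pair.1 h.choose_spec
  rw [← h1.1, ← Encodable.encode_injective h1.2]

theorem tc_nm_cdV (F : ℕ → List Bool → RO P) (n : ℕ) : tc (nm (cdV F)) n = F n := by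
  funext σ
  unfold tc
  rw [rl_nm, cdV_apply]

/-- A name forced to be a subset of `ω` is forced to be equal to the name of its truth values. -/
theorem feq_nm {τ : Nm P} {p : P}
    (hτ : ∀ σ : Nm P, ∀ q, q ≤ p → fmem σ τ q → fmem σ (chk PSet.omega) q) :
    feq τ (nm (rl τ)) p := by
  apply feq_of_fmem
  · intro i q hq hqi
    have h1 : fmem (τ.child i) τ q := fmem_child _ _ hqi
    have h2 := hτ _ q hq h1
    apply fmem_dense
    intro r hr
    obtain ⟨s, hs, ⟨⟨n⟩⟩, -, h3⟩ := h2 r hr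
    refine ⟨s, hs, ?_⟩
    have h4 : feq (τ.child i) (nN n) s := h3
    have h5 : fmem (nN n) τ s := fmem_congr_left h4 (fmem_mono h1 (hs.trans hr))
    have h6 : fmem (nN n) (nm (rl τ)) s := fmem_nN_nm.2 h5
    exact fmem_congr_left (feq_symm h4) h6
  · rintro ⟨⟨n, r⟩, hr⟩ q hq hqi
    have h1 : fmem (nN n) τ r := hr
    exact fmem_mono h1 hqi

theorem feq_nm_nm {x y : ℕ → RO P} {p : P} (h : p ∈ ⨅ n : ℕ, iffV (x n) (y n)) :
    feq (nm x) (nm y) p := by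
  rw [RO.mem_iInf] at h
  apply feq_of_fmem
  · rintro ⟨⟨n, r⟩, hr⟩ q hq hqi
    have h1 := (RO.mem_inf.1 (h n)).1
    rw [RO.mem_himp] at h1
    exact fmem_nN_nm.2 (h1 q hq (RO.mem_lower hqi hr))
  · rintro ⟨⟨n, r⟩, hr⟩ q hq hqi
    have h1 := (RO.mem_inf.1 (h n)).2
    rw [RO.mem_himp] at h1
    exact fmem_nN_nm.2 (h1 q hq (RO.mem_lower hqi hr))

theorem isSetName_SE (α : Nm P) : IsSetName (SE α) := by
  intro x y
  rw [RO.le_def]
  intro p hp
  rw [RO.mem_inf] at hp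
  exact fmem_congr_left (feq_nm_nm hp.1) hp.2

theorem mem_realP {x : ℕ → Prop} {z : ZFSet.{0}} :
    z ∈ realP x ↔ ∃ n, x n ∧ z = ZFSet.mk (PSet.ofNat n) := by
  unfold realP
  rw [ZFSet.mem_range]
  constructor
  · rintro ⟨⟨n, hn⟩, rfl⟩
    exact ⟨n, hn, rfl⟩
  · rintro ⟨n, hn, rfl⟩
    exact ⟨⟨n, hn⟩, rfl⟩

theorem nam_mem_realP_nat {x : ℕ → Prop} {n : ℕ} : ZFSet.mk (PSet.ofNat n) ∈ realP x ↔ x n := by
  rw [mem_realP]
  constructor
  · rintro ⟨m, hm, h⟩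
    rw [nam_nat_inj h]
    exact hm
  · intro h
    exact ⟨n, h, rfl⟩

theorem realP_inj {x y : ℕ → Prop} (h : realP x = realP y) : x = y := by
  funext n
  apply propext
  rw [← nam_mem_realP_nat (x := x), h, nam_mem_realP_nat]

section Model

variable {R : Type} {W : R → (ℕ → Nm P) → P → Nm P → Prop} (g : Gen W)

theorem fr_pt {U : RO P} : Fr (pt g) U ↔ ∃ k, g.pc k ∈ U := by
  constructor
  · rintro ⟨p, ⟨k, hk⟩, hp⟩
    exact ⟨k, RO.mem_lower hk hp⟩
  · rintro ⟨k, hk⟩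
    exact ⟨g.pc k, ⟨k, le_rfl⟩, hk⟩

/-- The point of a name of the fragment. -/
theorem fr_rl {τ : Nm P} (hτ : τ ∈ g.N) (n : ℕ) :
    Fr (pt g) (rl τ n) ↔ ZFSet.mk (PSet.ofNat n) ∈ g.val τ := by
  rw [fr_pt]
  have h := g.mem_iff (g.chk_num_mem n) hτ
  rw [g.val_num] at h
  exact h

/-- If `realP x ∈ M` then `x` is the point of a name of the fragment which is forced to be a subset
of `ω`. -/
theorem exists_name_of_real {x : ℕ → Prop} (hx : realP x ∈ g.M) :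
    ∃ τ ∈ g.N, g.val τ = realP x ∧ (∀ n, Fr (pt g) (rl τ n) ↔ x n) ∧
      ∃ k, ∀ σ : Nm P, ∀ q, q ≤ g.pc k → fmem σ τ q → fmem σ (chk PSet.omega) q := by
  obtain ⟨τ, hτ, hτ'⟩ := hx
  refine ⟨τ, hτ, hτ', fun n => ?_, ?_⟩
  · rw [fr_rl g hτ, hτ', nam_mem_realP_nat]
  · have hv : ∀ i, (Pool.Agent.Helper87.Sym.cons τ fun _ => chk PSet.omega) i ∈ g.N := by
      intro i
      cases i with
      | zero => exact hτ
      | succ i => exact g.chk_omega_mem
    obtain ⟨k, hk⟩ := (g.truth (.all (.imp (.mem 0 1) (.mem 0 2))) hv).2 (by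
      intro z _ hz
      change z ∈ g.val τ at hz
      change z ∈ g.val (chk PSet.omega)
      rw [hτ', mem_realP] at hz
      rw [g.val_omega, nam_mem_omega]
      obtain ⟨n, -, hn⟩ := hz
      exact ⟨n, hn⟩)
    exact ⟨k, fun σ q hq h => hk σ q hq h⟩

/-- The value of the name of a point. -/
theorem val_nm {x : ℕ → RO P} (hx : nm x ∈ g.N) :
    g.val (nm x) = realP fun n => Fr (pt g) (x n) := by
  ext z
  rw [g.mem_val, mem_realP]
  constructor
  · rintro ⟨⟨⟨n, r⟩, hr⟩, -, ⟨k, hk⟩, h3⟩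
    refine ⟨n, (fr_pt g).2 ⟨k, RO.mem_lower hk hr⟩, ?_⟩
    rw [← h3]
    exact g.val_num n
  · rintro ⟨n, hn, rfl⟩
    obtain ⟨k, hk⟩ := (fr_pt g).1 hn
    exact ⟨⟨(n, g.pc k), hk⟩, g.chk_num_mem n, ⟨k, le_rfl⟩, g.val_num n⟩

/-- The code of a sequence of sets of words with a name in the fragment. -/
theorem cd_mem {x : Nm P} (hx : nm (cdV (tc x)) ∈ g.N) :
    cd (fun n σ => Fr (pt g) (tc x n σ)) ∈ realsP g.M := by
  refine ⟨_, hx, ?_⟩
  rw [val_nm g hx]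
  congr 1
  funext c
  apply propext
  constructor
  · intro h
    by_cases hc : ∃ x : ℕ × List Bool, c = Nat.pair x.1 (Encodable.encode x.2)
    · obtain ⟨⟨n, σ⟩, rfl⟩ := hc
      rw [cdV_apply] at h
      exact ⟨n, σ, rfl, h⟩
    · exfalso
      unfold cdV at h
      rw [dif_neg hc] at h
      obtain ⟨p, -, hp⟩ := h
      exact RO.not_mem_bot p hp
  · rintro ⟨n, σ, rfl, h⟩
    rw [cdV_apply]
    exact h

end Model

end Pool.Agent.Helper32.HB
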