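import Pool.Agent.Helper32.HB.NmB

/-! # HB module Cho: generic models satisfy the Axiom of Choice -/

set_option autoImplicit false

namespace Pool.Agent.Helper32.HB

open Set Filter Pool.Agent.Helper33.HM Pool.Agent.Helper33.HMG
open Pool.Agent.Helper87.Sym (Fml cons Sat cons_zero cons_succ Sat_mem Sat_eq Sat_imp Sat_all
  Sat_neg Sat_and Sat_ex)

universe u

variable {P : Type u} [Preorder P]

/-- If a condition forces that `ρ` is a nonempty member of the disjoint family `τ`, then it does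
not force that `ρ` and `chN τ` are disjoint. -/
theorem cho_exists {τ ρ σ : Nm P} {p : P} (hρ : fmem ρ τ p) (hσ : fmem σ ρ p)
    (hd : ∀ y z u q, q ≤ p → fmem y τ q → fmem z τ q → fmem u y q → fmem u z q → feq y z q)
    (hno : ∀ u q, q ≤ p → fmem u ρ q → ¬ fmem u (chN τ) q) : False := by
  classical
  let S : Set (unionN τ).Idx :=
    {j | ∃ q, q ≤ p ∧ q ≤ (unionN τ).cond j ∧ fmem ((unionN τ).child j) ρ q}
  have hne : S.Nonempty := by
    have h1 : fmem σ (unionN τ) p := by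
      refine (char_unionN (fun _ => τ) σ p).2 ?_
      refine Fc_ex_of (x := ρ) ?_
      rw [Fc_and]
      exact ⟨hρ, hσ⟩
    obtain ⟨s, hs, j, hj, hj'⟩ := h1 p le_rfl
    exact ⟨j, s, hs, hj, fmem_congr_left hj' (fmem_mono hσ hs)⟩
  obtain ⟨j, ⟨q, hq, hqj, hjρ⟩, hmin⟩ :=
    (IsWellFounded.wf : WellFounded (WellOrderingRel : (unionN τ).Idx → _ → Prop)).has_min S hne
  have hx : q ≤ (unionN τ).cond j ∧
      ∀ y : Nm P, ∀ q', q' ≤ q → fmem y τ q' → fmem ((unionN τ).child j) y q' →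
        ∀ j', WellOrderingRel j' j → ∀ r, r ≤ q' → r ≤ (unionN τ).cond j' →
          ¬ fmem ((unionN τ).child j') y r := by
    refine ⟨hqj, fun y q' hq' hyτ hjy j' hj' r hr hrj hr' => ?_⟩
    have he : feq y ρ q' := hd y ρ _ q' (hq'.trans hq) hyτ (fmem_mono hρ (hq'.trans hq)) hjy
      (fmem_mono hjρ hq')
    exact hmin j' ⟨r, hr.trans (hq'.trans hq), hrj, fmem_congr_right (feq_mono he hr) hr'⟩ hj'
  have hm : fmem ((unionN τ).child j) (chN τ) q :=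
    fmem_child (chN τ) ⟨(j, q), hx⟩ (le_refl q)
  exact hno _ q hq hjρ hm

/-- A late condition forces two members of `ρ` and of `chN τ` to be equal. -/
theorem cho_unique {τ ρ σ₁ σ₂ : Nm P} {p : P} (hρ : fmem ρ τ p) (h1 : fmem σ₁ ρ p)
    (h2 : fmem σ₂ ρ p) (i₁ i₂ : (chN τ).Idx) (hi₁ : p ≤ (chN τ).cond i₁)
    (hi₂ : p ≤ (chN τ).cond i₂) (he₁ : feq σ₁ ((chN τ).child i₁) p)
    (he₂ : feq σ₂ ((chN τ).child i₂) p) : feq σ₁ σ₂ p := by
  obtain ⟨⟨j₁, q₁⟩, hq₁, hx₁⟩ := i₁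
  obtain ⟨⟨j₂, q₂⟩, hq₂, hx₂⟩ := i₂
  change p ≤ q₁ at hi₁
  change p ≤ q₂ at hi₂
  change feq σ₁ ((unionN τ).child j₁) p at he₁
  change feq σ₂ ((unionN τ).child j₂) p at he₂
  change q₁ ≤ (unionN τ).cond j₁ at hq₁
  change q₂ ≤ (unionN τ).cond j₂ at hq₂
  rcases trichotomous_of (WellOrderingRel : (unionN τ).Idx → _ → Prop) j₁ j₂ with h | h | h
  · exact absurd (fmem_congr_left he₁ h1)
      (hx₂ ρ p hi₂ hρ (fmem_congr_left he₂ h2) j₁ h p le_rfl (hi₁.trans hq₁))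
  · subst h
    exact feq_trans he₁ (feq_symm he₂)
  · exact absurd (fmem_congr_left he₂ h2)
      (hx₁ ρ p hi₁ hρ (fmem_congr_left he₁ h1) j₂ h p le_rfl (hi₂.trans hq₂))

variable [OrderTop P]

/-- Disjointness of the members of `val τ` is forced. -/
theorem cho_disj {R : Type} {W : R → (ℕ → Nm P) → P → Nm P → Prop} (g : Gen W) {τ : Nm P}
    (hτ : τ ∈ g.N) (hd : ∀ y ∈ g.val τ, ∀ z ∈ g.val τ, y ≠ z → y ∩ z = ∅) :
    ∃ k, ∀ y z u q, q ≤ g.pc k → fmem y τ q → fmem z τ q → fmem u y q → fmem u z q →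
      feq y z q := by
  obtain ⟨k, hk⟩ := (g.truth (.all (.all (.all (.imp (.mem 2 3) (.imp (.mem 1 3)
    (.imp (.mem 0 2) (.imp (.mem 0 1) (.eq 2 1)))))))) (v := fun _ => τ) (fun _ => hτ)).2 (by
      simp only [Sat_all, Sat_imp, Sat_mem, Sat_eq, cons_zero, cons_succ]
      intro y _ z _ u _ hy hz huy huz
      by_contra hne
      have h1 := hd y hy z hz hne
      have h2 : u ∈ y ∩ z := ZFSet.mem_inter.2 ⟨huy, huz⟩
      rw [h1] at h2
      exact ZFSet.notMem_empty u h2)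
  exact ⟨k, fun y z u q hq h1 h2 h3 h4 => hk y z u q hq h1 q le_rfl h2 q le_rfl h3 q le_rfl h4⟩

/-- A generic model whose set of names is closed under `chN` satisfies the Axiom of Choice. -/
theorem zfc_of_ch {R : Type} {W : R → (ℕ → Nm P) → P → Nm P → Prop} (g : Gen W)
    (hch : ∀ τ ∈ g.N, chN τ ∈ g.N) : IsTransModelZFC g.M where
  zf := g.isModel
  choice := by
    rintro _ ⟨τ, hτ, rfl⟩ hne hd
    have hc := hch τ hτ
    refine ⟨g.val (chN τ), ⟨_, hc, rfl⟩, ?_⟩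
    intro y hy
    obtain ⟨ρ, hρ, rfl⟩ := g.trans ⟨τ, hτ, rfl⟩ hy
    obtain ⟨k1, hk1⟩ := (g.mem_iff hρ hτ).2 hy
    have hex : ∃ u, u ∈ g.val ρ ∧ u ∈ g.val (chN τ) := by
      by_contra hcon
      push Not at hcon
      obtain ⟨z, hz⟩ : ∃ z, z ∈ g.val ρ := by
        by_contra h0
        push Not at h0
        exact hne _ hy ((ZFSet.eq_empty _).2 h0)
      obtain ⟨σ, hσ, rfl⟩ := g.trans ⟨ρ, hρ, rfl⟩ hz
      obtain ⟨k2, hk2⟩ := (g.mem_iff hσ hρ).2 hz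
      obtain ⟨k3, hk3⟩ := cho_disj g hτ hd
      have hv : ∀ i, (cons ρ fun _ => chN τ) i ∈ g.N := by
        intro i
        cases i with
        | zero => exact hρ
        | succ i => exact hc
      obtain ⟨k4, hk4⟩ := (g.truth (.neg (.ex (.and (.mem 0 1) (.mem 0 2)))) hv).2 (by
        simp only [Sat_neg, Sat_ex, Sat_and, Sat_mem, cons_zero, cons_succ]
        rintro ⟨u, -, hu1, hu2⟩
        exact hcon u hu1 hu2)
      rw [Fc_neg] at hk4
      have e1 : k1 ≤ k1 + k2 + k3 + k4 := by omega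
      have e2 : k2 ≤ k1 + k2 + k3 + k4 := by omega
      have e3 : k3 ≤ k1 + k2 + k3 + k4 := by omega
      have e4 : k4 ≤ k1 + k2 + k3 + k4 := by omega
      refine cho_exists (p := g.pc (k1 + k2 + k3 + k4)) (fmem_mono hk1 (g.pc_le e1))
        (fmem_mono hk2 (g.pc_le e2))
        (fun y z u q hq => hk3 y z u q (hq.trans (g.pc_le e3))) ?_
      intro u q hq h1 h2
      refine hk4 q (hq.trans (g.pc_le e4)) (Fc_ex_of (x := u) ?_)
      rw [Fc_and]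
      exact ⟨h1, h2⟩
    obtain ⟨u, hu1, hu2⟩ := hex
    refine ⟨u, ⟨hu1, hu2⟩, ?_⟩
    rintro w ⟨hw1, hw2⟩
    obtain ⟨σ₁, hσ₁, rfl⟩ := g.trans ⟨ρ, hρ, rfl⟩ hu1
    obtain ⟨σ₂, hσ₂, rfl⟩ := g.trans ⟨ρ, hρ, rfl⟩ hw1
    obtain ⟨a1, ha1⟩ := (g.mem_iff hσ₁ hρ).2 hu1
    obtain ⟨a2, ha2⟩ := (g.mem_iff hσ₂ hρ).2 hw1
    obtain ⟨b1, hb1⟩ := (g.mem_iff hσ₁ hc).2 hu2
    obtain ⟨b2, hb2⟩ := (g.mem_iff hσ₂ hc).2 hw2
    obtain ⟨i₁, -, c1, hc1, hc1'⟩ := g.mem_req hσ₁ hc hb1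
    obtain ⟨i₂, -, c2, hc2, hc2'⟩ := g.mem_req hσ₂ hc hb2
    have hle : ∀ k, k ≤ k1 + a1 + a2 + c1 + c2 →
        g.pc (k1 + a1 + a2 + c1 + c2) ≤ g.pc k := fun k hk => g.pc_le hk
    refine ((g.eq_iff hσ₂ hσ₁).1 ⟨k1 + a1 + a2 + c1 + c2, feq_symm ?_⟩)
    exact cho_unique (fmem_mono hk1 (hle _ (by omega))) (fmem_mono ha1 (hle _ (by omega)))
      (fmem_mono ha2 (hle _ (by omega))) i₁ i₂ ((hle c1 (by omega)).trans hc1)
      ((hle c2 (by omega)).trans hc2) (feq_mono hc1' (hle _ (by omega)))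
      (feq_mono hc2' (hle _ (by omega)))

end Pool.Agent.Helper32.HB
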