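import Pool.Agent.Helper32.HB.NmB

/-! # HB module Pnt: generic sequences with requirements -/

set_option autoImplicit false

namespace Pool.Agent.Helper32.HB

open Set Filter Pool.Agent.Helper33.HM Pool.Agent.Helper33.HMG

universe u

variable {P : Type u} [Preorder P] [OrderTop P]

/-- Generic sequences exist with arbitrary countably many further requirements `W`, closed under
`chN`, and with a point in arbitrary generic events `E r v`, `v` any finite sequence of names of the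
fragment. -/
theorem exists_point {R R' : Type} [Countable R] [Countable R']
    (W : R → (ℕ → Nm P) → P → Nm P → Prop) (E : R' → (ℕ → Nm P) → Set (GF P))
    (hE : ∀ r v, ∀ᶠ G in aeG P, G ∈ E r v) :
    ∃ (R₁ : Type) (W₁ : R₁ → (ℕ → Nm P) → P → Nm P → Prop) (g : Gen W₁),
      (∀ τ ∈ g.N, chN τ ∈ g.N) ∧
      (∀ r (t : List (Nm P)), (∀ x ∈ t, x ∈ g.N) →
        ∃ k, (∃ x ∈ g.N, W r (asg t) (g.pc k) x) ∨ ∀ q, q ≤ g.pc k → ∀ x, ¬ W r (asg t) q x) ∧
      ∀ r (t : List (Nm P)), (∀ x ∈ t, x ∈ g.N) → pt g ∈ E r (asg t) := by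
  have hE' : ∀ r v, ∃ D : ℕ → Set P, (∀ i, DenseP (D i)) ∧
      ∀ G : GF P, (∀ i, ∃ p ∈ D i, p ∈ G.carrier) → G ∈ E r v := fun r v => hE r v
  choose D hD hDE using hE'
  let W₁ : R ⊕ Unit ⊕ (R' × ℕ) → (ℕ → Nm P) → P → Nm P → Prop := fun r v p x =>
    Sum.elim (fun r => W r v p x)
      (fun r => Sum.elim (fun _ => x = chN (v 0)) (fun r => p ∈ D r.1 v r.2) r) r
  obtain ⟨g⟩ := Pool.Agent.Helper33.HMG.exists_gen W₁
  refine ⟨_, W₁, g, ?_, ?_, ?_⟩
  · intro τ hτ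
    obtain ⟨k, hk | hk⟩ := g.req (Sum.inr (Sum.inl ())) [τ] (by simp [hτ])
    · obtain ⟨x, hx, hxe⟩ := hk
      have h1 : x = chN τ := hxe
      exact h1 ▸ hx
    · exact (hk (g.pc k) le_rfl (chN τ) rfl).elim
  · intro r t ht
    exact g.req (Sum.inl r) t ht
  · intro r t ht
    refine hDE r (asg t) (pt g) fun i => ?_
    obtain ⟨k, hk | hk⟩ := g.req (Sum.inr (Sum.inr (r, i))) t ht
    · obtain ⟨x, hx, hxe⟩ := hk
      exact ⟨g.pc k, hxe, k, le_rfl⟩
    · obtain ⟨q, hq, hqk⟩ := hD r (asg t) i (g.pc k)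
      exact (hk q hqk emptyN hq).elim

end Pool.Agent.Helper32.HB
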