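import Pool.Agent.Helper33.HM.RO
import Pool.Agent.Helper33.HM.Val

/-!
# Bridge (phase 2 of HM): filters, generic events, truth values of a filter
-/

set_option autoImplicit false

namespace Pool.Agent.Helper32.HB

open Set Filter Pool.Agent.Helper33.HM

universe u

/-- Filters on the preorder `P`. -/
structure GF (P : Type u) [Preorder P] where
  carrier : Set P
  nonempty : carrier.Nonempty
  up : ∀ p ∈ carrier, ∀ q, p ≤ q → q ∈ carrier
  dir : ∀ p ∈ carrier, ∀ q ∈ carrier, ∃ r ∈ carrier, r ≤ p ∧ r ≤ q

variable {P : Type u} [Preorder P]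

/-- `D` is dense in `P`. -/
def DenseP (D : Set P) : Prop := ∀ p, ∃ q ∈ D, q ≤ p

/-- The generic events: sets of filters which contain all filters meeting countably many given
dense sets. -/
def aeG (P : Type u) [Preorder P] : Filter (GF P) where
  sets := {E | ∃ D : ℕ → Set P, (∀ i, DenseP (D i)) ∧
    ∀ G : GF P, (∀ i, ∃ p ∈ D i, p ∈ G.carrier) → G ∈ E}
  univ_sets := ⟨fun _ => univ, fun _ p => ⟨p, mem_univ _, le_rfl⟩, fun _ _ => mem_univ _⟩
  sets_of_superset := by
    rintro E F ⟨D, hD, h⟩ hEF
    exact ⟨D, hD, fun G hG => hEF (h G hG)⟩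
  inter_sets := by
    rintro E F ⟨D, hD, h⟩ ⟨D', hD', h'⟩
    refine ⟨fun i => if i % 2 = 0 then D (i / 2) else D' (i / 2), ?_, ?_⟩
    · intro i
      dsimp only
      split
      · exact hD _
      · exact hD' _
    · intro G hG
      constructor
      · refine h G fun i => ?_
        have := hG (2 * i)
        simpa using this
      · refine h' G fun i => ?_
        have := hG (2 * i + 1)
        have h1 : (2 * i + 1) % 2 = 1 := by omega
        have h2 : (2 * i + 1) / 2 = i := by omega
        simpa [h1, h2] using this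

/-- The filter `G` makes the truth value `U` true. -/
def Fr (G : GF P) (U : RO P) : Prop := ∃ p ∈ G.carrier, p ∈ U

end Pool.Agent.Helper32.HB
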