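import Mathlib

/-!
# Bridge: the sentence, for an arbitrary third order structure `(ω, R, 𝒬)`

Points of the Cantor space are subsets of `ω`, given by predicates `x : ℕ → Prop`; words are
elements of `List Bool`; a closed set is coded by the set of all words whose cylinder meets it.
-/

set_option autoImplicit false

namespace Pool.Agent.Helper32.HB

open Set

/-- `x` extends the word `σ`. -/
def Ext (x : ℕ → Prop) (σ : List Bool) : Prop := ∀ i (h : i < σ.length), σ[i] = true ↔ x i

/-- `T` is a pruned tree: the set of the words whose cylinder meets some given closed set. -/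
def Pruned (T : List Bool → Prop) : Prop := ∀ σ, T σ ↔ T (σ ++ [false]) ∨ T (σ ++ [true])

/-- `x` belongs to the closed set coded by `T`. -/
def InCl (x : ℕ → Prop) (T : List Bool → Prop) : Prop := ∀ σ, Ext x σ → T σ

/-- The closed set coded by `T` has measure zero (for the product measure): for every `k` there is
`n` such that at most `2 ^ n / 2 ^ k` words of length `n` belong to `T`. -/
def Null (T : List Bool → Prop) : Prop :=
  ∀ k : ℕ, ∃ n : ℕ, ∃ G : Finset (List Bool), G.card * 2 ^ k ≤ 2 ^ n ∧
    ∀ σ : List Bool, σ.length = n → T σ → σ ∈ G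

/-- `T` codes a closed set all of whose nonempty relatively open subsets have positive measure. -/
def Fat (T : List Bool → Prop) : Prop :=
  Pruned T ∧ ∀ σ, T σ → ¬ Null fun τ => T τ ∧ (τ <+: σ ∨ σ <+: τ)

/-- The closed set coded by `F` has a nowhere dense intersection with the one coded by `T`. -/
def Nwd (F T : List Bool → Prop) : Prop := ∀ σ, T σ → ∃ τ, σ <+: τ ∧ T τ ∧ ¬ F τ

/-- The point which codes the sequence `F` of sets of words. -/
def cd (F : ℕ → List Bool → Prop) : ℕ → Prop :=
  fun c => ∃ n σ, c = Nat.pair n (Encodable.encode σ) ∧ F n σ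

/-- The sentence for the third order structure `(ω, R, 𝒬)`, where `R` is a set of points and `𝒬`
a set of sets of points: every set `A` in `𝒬`, such that for every sequence of fat closed sets there
are countably many closed sets which cover `A` and are nowhere dense in each of the given fat
sets, is covered by countably many closed sets of measure zero. (All sequences of closed sets are
coded in `R`.) -/
def Sentence (R : Set (ℕ → Prop)) (Q : Set (Set (ℕ → Prop))) : Prop :=
  ∀ A ∈ Q,
    (∀ T : ℕ → List Bool → Prop, cd T ∈ R → (∀ n, Fat (T n)) →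
      ∃ F : ℕ → List Bool → Prop, cd F ∈ R ∧ (∀ k, Pruned (F k)) ∧
        (∀ x ∈ A, ∃ k, InCl x (F k)) ∧ ∀ k n, Nwd (F k) (T n)) →
    ∃ F : ℕ → List Bool → Prop, cd F ∈ R ∧ (∀ k, Pruned (F k) ∧ Null (F k)) ∧
      ∀ x ∈ A, ∃ k, InCl x (F k)

end Pool.Agent.Helper32.HB
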