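import Pool.Agent.Helper33.HMG.Model
import Pool.Agent.Helper32.HB.Event
import Pool.Agent.Helper32.HB.Sent

/-!
# Bridge: countable transitive models of ZFC, their points and sets of points; names of points
-/

set_option autoImplicit false

namespace Pool.Agent.Helper32.HB

open Set Filter Pool.Agent.Helper33.HM Pool.Agent.Helper33.HMG
open Pool.Agent.Helper87.Sym (IsTransModelZF)

universe u

/-- `M` is a transitive set and a model of ZFC. -/
structure IsTransModelZFC (M : Set ZFSet.{0}) : Prop where
  /-- transitivity and the axioms of ZF -/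
  zf : IsTransModelZF M
  /-- the Axiom of Choice: every family of nonempty pairwise disjoint sets has a selector -/
  choice : ∀ x ∈ M, (∀ y ∈ x, y ≠ ∅) → (∀ y ∈ x, ∀ z ∈ x, y ≠ z → y ∩ z = ∅) →
    ∃ c ∈ M, ∀ y ∈ x, ∃! u, u ∈ y ∧ u ∈ c

/-- The subset `x` of `ω`, as a set. -/
noncomputable def realP (x : ℕ → Prop) : ZFSet.{0} :=
  ZFSet.range fun n : {n : ℕ // x n} => ZFSet.mk (PSet.ofNat n.1)

/-- The subsets of `ω` which are elements of `M`. -/
def realsP (M : Set ZFSet.{0}) : Set (ℕ → Prop) := {x | realP x ∈ M}

/-- The sets of subsets of `ω` which are elements of `M`. -/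
def setsP (M : Set ZFSet.{0}) : Set (Set (ℕ → Prop)) :=
  {A | ZFSet.range (fun x : A => realP x.1) ∈ M}

section Names

variable {P : Type u} [Preorder P]

/-- The truth value of `σ ∈ τ`. -/
def memv (σ τ : Nm P) : RO P where
  carrier := {p | fmem σ τ p}
  lower _ hp _ hq := fmem_mono hp hq
  reg _ hp := fmem_dense hp

/-- The name of a selector for the family `τ`: with respect to a well-order of the members of
the union of `τ`, it contains the members `z` of the union with no smaller member in the same
member of `τ`. -/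
noncomputable def chN (τ : Nm P) : Nm P :=
  .mk {x : (unionN τ).Idx × P // x.2 ≤ (unionN τ).cond x.1 ∧
      ∀ y : Nm P, ∀ q, q ≤ x.2 → fmem y τ q → fmem ((unionN τ).child x.1) y q →
        ∀ j, WellOrderingRel j x.1 → ∀ r, r ≤ q → r ≤ (unionN τ).cond j →
          ¬ fmem ((unionN τ).child j) y r}
    (fun x => (unionN τ).child x.1.1) (fun x => x.1.2)

variable [OrderTop P]

/-- The check name of a natural number. -/
def nN (n : ℕ) : Nm P := chk (PSet.ofNat n)

/-- The name of the point given by the truth values `x`. -/
def nm (x : ℕ → RO P) : Nm P :=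
  .mk {y : ℕ × P // y.2 ∈ x y.1} (fun y => nN y.1.1) (fun y => y.1.2)

/-- The truth values of the point named by `τ`. -/
def rl (τ : Nm P) (n : ℕ) : RO P := memv (nN n) τ

/-- The name for a set of points given by the name `α`. -/
def SE (α : Nm P) (x : ℕ → RO P) : RO P := memv (nm x) α

/-- The sequence of sets of words coded by the name `τ`. -/
def tc (τ : Nm P) (n : ℕ) (σ : List Bool) : RO P := rl τ (Nat.pair n (Encodable.encode σ))

open Classical in
/-- The code of a sequence of names of sets of words. -/
noncomputable def cdV (F : ℕ → List Bool → RO P) (c : ℕ) : RO P :=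
  if h : ∃ x : ℕ × List Bool, c = Nat.pair x.1 (Encodable.encode x.2) then
    F h.choose.1 h.choose.2 else ⊥

/-- The generic filter of a generic sequence. -/
def pt {R : Type} {W : R → (ℕ → Nm P) → P → Nm P → Prop} (g : Gen W) : GF P where
  carrier := g.F
  nonempty := ⟨g.pc 0, 0, le_rfl⟩
  up := by
    rintro p ⟨k, hk⟩ q hq
    exact ⟨k, hk.trans hq⟩
  dir := by
    rintro p ⟨k, hk⟩ q ⟨l, hl⟩
    exact ⟨g.pc (max k l), ⟨max k l, le_rfl⟩, (g.anti (le_max_left _ _)).trans hk,
      (g.anti (le_max_right _ _)).trans hl⟩

end Names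

end Pool.Agent.Helper32.HB
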