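import Pool.Agent.Helper32.HB.Ev1

/-! # HB module Ev2: generic filters respect the matrix of the sentence -/

set_option autoImplicit false

namespace Pool.Agent.Helper32.HB

open Set Filter Pool.Agent.Helper33.HM

universe u

variable {P : Type u} [Preorder P]

/-- The truth value `a` holds generically exactly if the event `b` holds. -/
def Ev2_ev (a : RO P) (b : GF P → Prop) : Prop := ∀ᶠ G in aeG P, (Fr G a ↔ b G)

theorem Ev2_self (a : RO P) : Ev2_ev a fun G => Fr G a := Eventually.of_forall fun _ => Iff.rfl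

theorem Ev2_iInf {ι : Sort*} [Countable ι] {a : ι → RO P} {b : ι → GF P → Prop}
    (h : ∀ i, Ev2_ev (a i) (b i)) : Ev2_ev (⨅ i, a i) fun G => ⨅ i, b i G := by
  filter_upwards [ae_iInf a, eventually_countable_forall.2 h] with G h1 h2
  rw [h1, iInf_Prop_eq]
  exact forall_congr' h2

theorem Ev2_iSup {ι : Sort*} [Countable ι] {a : ι → RO P} {b : ι → GF P → Prop}
    (h : ∀ i, Ev2_ev (a i) (b i)) : Ev2_ev (⨆ i, a i) fun G => ⨆ i, b i G := by
  filter_upwards [ae_iSup a, eventually_countable_forall.2 h] with G h1 h2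
  rw [h1, iSup_Prop_eq]
  exact exists_congr h2

theorem Ev2_compl {a : RO P} {b : GF P → Prop} (h : Ev2_ev a b) :
    Ev2_ev aᶜ fun G => (b G)ᶜ := by
  filter_upwards [ae_compl a, h] with G h1 h2
  rw [h1, h2]
  rfl

theorem Ev2_himp {a a' : RO P} {b b' : GF P → Prop} (h : Ev2_ev a b) (h' : Ev2_ev a' b') :
    Ev2_ev (a ⇨ a') fun G => b G ⇨ b' G := by
  filter_upwards [ae_himp a a', h, h'] with G h1 h2 h3
  rw [h1, h2, h3]
  rfl

theorem Ev2_sup {a a' : RO P} {b b' : GF P → Prop} (h : Ev2_ev a b) (h' : Ev2_ev a' b') :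
    Ev2_ev (a ⊔ a') fun G => b G ⊔ b' G := by
  filter_upwards [ae_sup a a', h, h'] with G h1 h2 h3
  rw [h1, h2, h3]
  rfl

theorem Ev2_inf {a a' : RO P} {b b' : GF P → Prop} (h : Ev2_ev a b) (h' : Ev2_ev a' b') :
    Ev2_ev (a ⊓ a') fun G => b G ⊓ b' G := by
  filter_upwards [h, h'] with G h2 h3
  rw [fr_inf, h2, h3]
  rfl

theorem Ev2_bot : Ev2_ev (⊥ : RO P) fun _ => (⊥ : Prop) := by
  refine Eventually.of_forall fun G => ?_
  constructor
  · rintro ⟨p, -, hp⟩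
    exact (RO.not_mem_bot p hp).elim
  · intro h
    exact h.elim

theorem Ev2_iffV {a a' : RO P} {b b' : GF P → Prop} (h : Ev2_ev a b) (h' : Ev2_ev a' b') :
    Ev2_ev (iffV a a') fun G => iffV (b G) (b' G) :=
  Ev2_inf (Ev2_himp h h') (Ev2_himp h' h)

theorem Ev2_cyl (x : ℕ → RO P) (σ : List Bool) :
    Ev2_ev (cyl x σ) fun G => cyl (fun n => Fr G (x n)) σ := by
  refine Ev2_iInf fun i => Ev2_iInf fun h => ?_
  cases hb : σ[i]
  · simp only [Bool.false_eq_true, if_false]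
    exact Ev2_compl (Ev2_self _)
  · simp only [if_true]
    exact Ev2_self _

theorem Ev2_nullV {T : List Bool → RO P} {S : GF P → List Bool → Prop}
    (h : ∀ σ, Ev2_ev (T σ) fun G => S G σ) : Ev2_ev (nullV T) fun G => nullV (S G) :=
  Ev2_iInf fun _ => Ev2_iSup fun _ => Ev2_iSup fun _ => Ev2_iSup fun _ =>
    Ev2_iInf fun σ => Ev2_iInf fun _ => Ev2_compl (h σ)

theorem Ev2_restr (T : List Bool → RO P) (σ τ : List Bool) :
    Ev2_ev (restr T σ τ) fun G => restr (fun σ => Fr G (T σ)) σ τ := by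
  unfold restr
  by_cases h1 : τ <+: σ
  · simp only [h1, if_true]
    exact Ev2_self _
  · by_cases h2 : σ <+: τ
    · simp only [h1, h2, if_true, if_false]
      exact Ev2_self _
    · simp only [h1, h2, if_false]
      exact Ev2_bot

theorem ae_pruned (T : List Bool → RO P) :
    ∀ᶠ G in aeG P, (Fr G (pruned T) ↔ pruned fun σ => Fr G (T σ)) :=
  Ev2_iInf fun _ => Ev2_iffV (Ev2_self _) (Ev2_sup (Ev2_self _) (Ev2_self _))

theorem ae_memV (x : ℕ → RO P) (T : List Bool → RO P) :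
    ∀ᶠ G in aeG P, (Fr G (memV x T) ↔ memV (fun n => Fr G (x n)) fun σ => Fr G (T σ)) :=
  Ev2_iInf fun σ => Ev2_himp (Ev2_cyl x σ) (Ev2_self _)

theorem ae_nullV (T : List Bool → RO P) :
    ∀ᶠ G in aeG P, (Fr G (nullV T) ↔ nullV fun σ => Fr G (T σ)) :=
  Ev2_nullV fun _ => Ev2_self _

theorem ae_fat (T : List Bool → RO P) :
    ∀ᶠ G in aeG P, (Fr G (fat T) ↔ fat fun σ => Fr G (T σ)) :=
  Ev2_inf (ae_pruned T)
    (Ev2_iInf fun σ => Ev2_himp (Ev2_self _) (Ev2_compl (Ev2_nullV fun τ => Ev2_restr T σ τ)))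

theorem ae_nwdV (F T : List Bool → RO P) :
    ∀ᶠ G in aeG P, (Fr G (nwdV F T) ↔ nwdV (fun σ => Fr G (F σ)) fun σ => Fr G (T σ)) :=
  Ev2_iInf fun _ => Ev2_himp (Ev2_self _)
    (Ev2_iSup fun _ => Ev2_iSup fun _ => Ev2_inf (Ev2_self _) (Ev2_compl (Ev2_self _)))

end Pool.Agent.Helper32.HB
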