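import Pool.Agent.Helper32.HB.Event

/-! # HB module Ev1: generic filters respect countable Boolean operations -/

set_option autoImplicit false

namespace Pool.Agent.Helper32.HB

open Set Filter Pool.Agent.Helper33.HM

universe u

variable {P : Type u} [Preorder P]

theorem Ev1_mem_aeG {E : Set (GF P)} : E ∈ aeG P ↔ ∃ D : ℕ → Set P, (∀ i, DenseP (D i)) ∧
    ∀ G : GF P, (∀ i, ∃ p ∈ D i, p ∈ G.carrier) → G ∈ E := Iff.rfl

instance : CountableInterFilter (aeG P) := by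
  refine ⟨fun S hS h => ?_⟩
  rcases S.eq_empty_or_nonempty with rfl | hne
  · simp
  obtain ⟨f, rfl⟩ := hS.exists_eq_range hne
  have h1 : ∀ n, ∃ D : ℕ → Set P, (∀ i, DenseP (D i)) ∧
      ∀ G : GF P, (∀ i, ∃ p ∈ D i, p ∈ G.carrier) → G ∈ f n := fun n =>
    Ev1_mem_aeG.1 (h (f n) ⟨n, rfl⟩)
  choose D hD hG using h1
  refine Ev1_mem_aeG.2 ⟨fun k => D k.unpair.1 k.unpair.2, fun k => hD _ _, ?_⟩
  rintro G hG' _ ⟨n, rfl⟩
  refine hG n G fun i => ?_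
  have := hG' (Nat.pair n i)
  simpa using this

theorem ae_dense {D : Set P} (h : DenseP D) : ∀ᶠ G in aeG P, ∃ p ∈ D, p ∈ G.carrier :=
  Ev1_mem_aeG.2 ⟨fun _ => D, fun _ => h, fun _ hG => hG 0⟩

theorem fr_top (G : GF P) : Fr G (⊤ : RO P) := by
  obtain ⟨p, hp⟩ := G.nonempty
  exact ⟨p, hp, RO.mem_top p⟩

theorem fr_mono {G : GF P} {U V : RO P} (h : U ≤ V) (hU : Fr G U) : Fr G V := by
  obtain ⟨p, hp, hpU⟩ := hU
  exact ⟨p, hp, h p hpU⟩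

theorem fr_inf {G : GF P} {U V : RO P} : Fr G (U ⊓ V) ↔ Fr G U ∧ Fr G V := by
  constructor
  · intro h
    exact ⟨fr_mono inf_le_left h, fr_mono inf_le_right h⟩
  · rintro ⟨⟨p, hp, hpU⟩, q, hq, hqV⟩
    obtain ⟨r, hr, hrp, hrq⟩ := G.dir p hp q hq
    exact ⟨r, hr, RO.mem_inf.2 ⟨RO.mem_lower hrp hpU, RO.mem_lower hrq hqV⟩⟩

theorem Ev1_fr_compl_not {G : GF P} {U : RO P} (h : Fr G Uᶜ) : ¬ Fr G U := by
  rintro ⟨q, hq, hqU⟩
  obtain ⟨p, hp, hpU⟩ := h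
  obtain ⟨r, _, hrp, hrq⟩ := G.dir p hp q hq
  exact RO.mem_compl.1 hpU r hrp (RO.mem_lower hrq hqU)

theorem ae_compl (U : RO P) : ∀ᶠ G in aeG P, (Fr G Uᶜ ↔ ¬ Fr G U) := by
  have hD : DenseP {p : P | p ∈ U ∨ p ∈ Uᶜ} := by
    intro p
    by_cases h : ∃ q, q ≤ p ∧ q ∈ U
    · obtain ⟨q, hq, hqU⟩ := h
      exact ⟨q, Or.inl hqU, hq⟩
    · refine ⟨p, Or.inr (RO.mem_compl.2 fun q hq hqU => h ⟨q, hq, hqU⟩), le_rfl⟩
  filter_upwards [ae_dense hD] with G hG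
  refine ⟨Ev1_fr_compl_not, fun h => ?_⟩
  obtain ⟨p, hp | hp, hpG⟩ := hG
  · exact absurd ⟨p, hpG, hp⟩ h
  · exact ⟨p, hpG, hp⟩

theorem ae_iSup {ι : Sort*} [Countable ι] (U : ι → RO P) :
    ∀ᶠ G in aeG P, (Fr G (⨆ i, U i) ↔ ∃ i, Fr G (U i)) := by
  have hD : DenseP {p : P | p ∈ (⨆ i, U i)ᶜ ∨ ∃ i, p ∈ U i} := by
    intro p
    by_cases h : ∃ q, q ≤ p ∧ ∃ i, q ∈ U i
    · obtain ⟨q, hq, hqU⟩ := h
      exact ⟨q, Or.inr hqU, hq⟩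
    · refine ⟨p, Or.inl (RO.mem_compl.2 fun q hq hqU => ?_), le_rfl⟩
      obtain ⟨r, hr, hrU⟩ := RO.mem_iSup.1 hqU q le_rfl
      exact h ⟨r, hr.trans hq, hrU⟩
  filter_upwards [ae_dense hD] with G hG
  constructor
  · intro h
    obtain ⟨p, hp | ⟨i, hi⟩, hpG⟩ := hG
    · exact absurd h (Ev1_fr_compl_not ⟨p, hpG, hp⟩)
    · exact ⟨i, p, hpG, hi⟩
  · rintro ⟨i, hi⟩
    exact fr_mono (le_iSup U i) hi

theorem ae_iInf {ι : Sort*} [Countable ι] (U : ι → RO P) :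
    ∀ᶠ G in aeG P, (Fr G (⨅ i, U i) ↔ ∀ i, Fr G (U i)) := by
  have hD : DenseP {p : P | p ∈ (⨅ i, U i) ∨ ∃ i, p ∈ (U i)ᶜ} := by
    intro p
    by_cases h : ∃ q, q ≤ p ∧ ∃ i, q ∈ (U i)ᶜ
    · obtain ⟨q, hq, hqU⟩ := h
      exact ⟨q, Or.inr hqU, hq⟩
    · refine ⟨p, Or.inl (RO.mem_iInf.2 fun i => RO.mem_reg fun q hq => ?_), le_rfl⟩
      by_contra hcon
      push Not at hcon
      exact h ⟨q, hq, i, RO.mem_compl.2 fun r hr hrU => hcon r hr hrU⟩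
  filter_upwards [ae_dense hD] with G hG
  constructor
  · intro h i
    exact fr_mono (iInf_le U i) h
  · intro h
    obtain ⟨p, hp | ⟨i, hi⟩, hpG⟩ := hG
    · exact ⟨p, hpG, hp⟩
    · exact absurd (h i) (Ev1_fr_compl_not ⟨p, hpG, hi⟩)

theorem ae_sup (U V : RO P) : ∀ᶠ G in aeG P, (Fr G (U ⊔ V) ↔ Fr G U ∨ Fr G V) := by
  filter_upwards [ae_iSup (fun b : Bool => bif b then U else V)] with G hG
  rw [iSup_bool_eq] at hG
  simp only [cond_true, cond_false] at hG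
  rw [hG]
  simp [Bool.exists_bool, or_comm]

theorem ae_himp (U V : RO P) : ∀ᶠ G in aeG P, (Fr G (U ⇨ V) ↔ (Fr G U → Fr G V)) := by
  filter_upwards [ae_sup V Uᶜ, ae_compl U] with G h1 h2
  rw [himp_eq, h1, h2]
  tauto

end Pool.Agent.Helper32.HB
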