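import Pool.Agent.Helper33.HM.Val
import Pool.Agent.Helper32.HB.Sent

/-! # HB module Sen: the sentence and `Val Prop` -/

set_option autoImplicit false

namespace Pool.Agent.Helper32.HB

open Set Pool.Agent.Helper33.HM

theorem sen_iffV {a b : Prop} : iffV a b ↔ (a ↔ b) := by
  unfold iffV
  constructor
  · rintro ⟨h1, h2⟩
    exact ⟨h1, h2⟩
  · rintro h
    exact ⟨h.1, h.2⟩

theorem pruned_iff {T : List Bool → Prop} : pruned T ↔ Pruned T := by
  unfold pruned Pruned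
  rw [iInf_Prop_eq]
  exact forall_congr' fun σ => sen_iffV

theorem sen_cyl {x : ℕ → Prop} {σ : List Bool} : cyl x σ ↔ Ext x σ := by
  unfold cyl Ext
  simp only [iInf_Prop_eq]
  refine forall_congr' fun i => forall_congr' fun h => ?_
  cases σ[i] <;> simp

theorem memV_iff {x : ℕ → Prop} {T : List Bool → Prop} : memV x T ↔ InCl x T := by
  unfold memV InCl
  simp only [iInf_Prop_eq]
  exact forall_congr' fun σ => imp_congr sen_cyl Iff.rfl

theorem nullV_iff {T : List Bool → Prop} : nullV T ↔ Null T := by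
  unfold nullV Null
  simp only [iInf_Prop_eq, iSup_Prop_eq]
  refine forall_congr' fun k => exists_congr fun n => exists_congr fun G => ?_
  constructor
  · rintro ⟨h1, h2⟩
    refine ⟨h1, fun σ hσ hT => ?_⟩
    by_contra hG
    exact h2 σ ⟨hσ, hG⟩ hT
  · rintro ⟨h1, h2⟩
    exact ⟨h1, fun σ hσ hT => hσ.2 (h2 σ hσ.1 hT)⟩

theorem sen_prefix {T : List Bool → Prop} (h : Pruned T) {σ τ : List Bool} (hτ : τ <+: σ)
    (hσ : T σ) : T τ := by
  obtain ⟨ρ, rfl⟩ := hτ
  induction ρ using List.reverseRecOn with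
  | nil => simpa using hσ
  | append_singleton ρ b ih =>
    apply ih
    rw [h]
    rw [← List.append_assoc] at hσ
    cases b
    · exact Or.inl hσ
    · exact Or.inr hσ

theorem fat_iff {T : List Bool → Prop} : fat T ↔ Fat T := by
  unfold fat Fat
  constructor
  · rintro ⟨h1, h2⟩
    have h1' := pruned_iff.1 h1
    refine ⟨h1', fun σ hσ hn => ?_⟩
    rw [iInf_Prop_eq] at h2
    refine h2 σ hσ (nullV_iff.2 ?_)
    have e : restr T σ = fun τ => T τ ∧ (τ <+: σ ∨ σ <+: τ) := by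
      funext τ
      unfold restr
      split_ifs with h3 h4
      · exact propext ⟨fun h => ⟨sen_prefix h1' h3 hσ, Or.inl h3⟩, fun _ => hσ⟩
      · exact propext ⟨fun h => ⟨h, Or.inr h4⟩, fun h => h.1⟩
      · exact propext ⟨fun h => h.elim, fun h => (h.2.elim h3 h4).elim⟩
    rw [e]
    exact hn
  · rintro ⟨h1, h2⟩
    refine ⟨pruned_iff.2 h1, ?_⟩
    rw [iInf_Prop_eq]
    intro σ hσ hn
    refine h2 σ hσ ?_
    have e : restr T σ = fun τ => T τ ∧ (τ <+: σ ∨ σ <+: τ) := by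
      funext τ
      unfold restr
      split_ifs with h3 h4
      · exact propext ⟨fun h => ⟨sen_prefix h1 h3 hσ, Or.inl h3⟩, fun _ => hσ⟩
      · exact propext ⟨fun h => ⟨h, Or.inr h4⟩, fun h => h.1⟩
      · exact propext ⟨fun h => h.elim, fun h => (h.2.elim h3 h4).elim⟩
    rw [← e]
    exact nullV_iff.1 hn

theorem nwdV_iff {F T : List Bool → Prop} : nwdV F T ↔ Nwd F T := by
  unfold nwdV Nwd
  simp only [iInf_Prop_eq, iSup_Prop_eq]
  refine forall_congr' fun σ => imp_congr Iff.rfl (exists_congr fun τ => ?_)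
  constructor
  · rintro ⟨h1, h2, h3⟩
    exact ⟨h1, h2, h3⟩
  · rintro ⟨h1, h2, h3⟩
    exact ⟨h1, h2, h3⟩

theorem cd_apply {F : ℕ → List Bool → Prop} {n : ℕ} {σ : List Bool} :
    cd F (Nat.pair n (Encodable.encode σ)) ↔ F n σ := by
  unfold cd
  constructor
  · rintro ⟨m, τ, h1, h2⟩
    rw [Nat.pair_eq_pair] at h1
    rw [h1.1, Encodable.encode_injective h1.2]
    exact h2
  · exact fun h => ⟨n, σ, rfl, h⟩

theorem val_prop_of_sentence (h : Sentence univ univ) : Val Prop := by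
  unfold Val
  simp only [iInf_Prop_eq]
  intro E _ hE
  have hE' : ∀ P : ℕ → List Bool → Prop, (∀ n, fat (P n)) →
      ∃ F : ℕ → List Bool → Prop, ((∀ k, pruned (F k)) ∧ covV E F) ∧ ∀ k n, nwdV (F k) (P n) := by
    intro P hP
    have h1 := hE
    unfold fatPM at h1
    simp only [iInf_Prop_eq, iSup_Prop_eq] at h1
    obtain ⟨F, ⟨h2, h3⟩, h4⟩ := h1 P hP
    exact ⟨F, ⟨h2, h3⟩, h4⟩
  obtain ⟨F, -, hF1, hF2⟩ := h {x | E x} (mem_univ _) (by
    intro T _ hT
    obtain ⟨F, ⟨h2, h3⟩, h4⟩ := hE' T fun n => fat_iff.2 (hT n)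
    refine ⟨F, mem_univ _, fun k => pruned_iff.1 (h2 k), ?_, fun k n => nwdV_iff.1 (h4 k n)⟩
    intro x hx
    unfold covV at h3
    simp only [iInf_Prop_eq, iSup_Prop_eq] at h3
    obtain ⟨k, hk⟩ := h3 x hx
    exact ⟨k, memV_iff.1 hk⟩)
  unfold nullCov
  simp only [iSup_Prop_eq, iInf_Prop_eq]
  refine ⟨F, fun k => ⟨pruned_iff.2 (hF1 k).1, nullV_iff.2 (hF1 k).2⟩, ?_⟩
  unfold covV
  simp only [iInf_Prop_eq, iSup_Prop_eq]
  intro x hx
  obtain ⟨k, hk⟩ := hF2 x hx
  exact ⟨k, memV_iff.2 hk⟩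

end Pool.Agent.Helper32.HB
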