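import Pool.Agent.Helper32.HB.NmB
import Pool.Agent.Helper32.HB.Ev1
import Pool.Agent.Helper32.HB.Ev2
import Pool.Agent.Helper32.HB.Sen
import Pool.Agent.Helper32.HB.Cho
import Pool.Agent.Helper32.HB.Pnt
import Pool.Agent.Helper32.HB.Nam

/-! # HB module Tra: the transfer to a countable transitive model -/

set_option autoImplicit false

namespace Pool.Agent.Helper32.HB

open Set Filter Pool.Agent.Helper33.HM Pool.Agent.Helper33.HMG

universe u

section Tra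

/-- The requirements of the generic sequence. -/
inductive Tra_R : Type
  | r1 | r2 | r3 | r4 | r5
  deriving Countable

/-- The events which must hold at the generic point. -/
inductive Tra_E : Type
  | fat | prn | nul | nwd | mem
  deriving Countable

variable {P : Type u} [Preorder P] [OrderTop P]

/-- The requirements. -/
def Tra_W : Tra_R → (ℕ → Nm P) → P → Nm P → Prop
  | .r1, v, q, x => q ∈ (⨅ n, fat (tc x n)) ∧
      q ∈ (⨆ F : ℕ → List Bool → RO P, (⨅ k : ℕ, pruned (F k)) ⊓ covV (SE (v 0)) F ⊓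
        ⨅ k : ℕ, ⨅ n : ℕ, nwdV (F k) (tc x n))ᶜ
  | .r2, v, q, x => q ∈ SE (v 0) (rl x) ∧ q ∈ (⨆ k : ℕ, memV (rl x) (tc (v 1) k))ᶜ
  | .r3, v, q, x => q ∈ (⨅ k : ℕ, pruned (tc x k) ⊓ nullV (tc x k)) ⊓ covV (SE (v 0)) (tc x)
  | .r4, v, _, x => x = nm (rl (v 0))
  | .r5, v, _, x => x = nm (cdV (tc (v 0)))

/-- The events. -/
def Tra_Ev : Tra_E → (ℕ → Nm P) → Set (GF P)
  | .fat, v => {G | Fr G (⨅ n, Pool.Agent.Helper33.HM.fat (tc (v 0) n)) ↔
      ∀ n, Fat fun σ => Fr G (tc (v 0) n σ)}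
  | .prn, v => {G | Fr G (⨅ k, pruned (tc (v 0) k)) ↔ ∀ k, Pruned fun σ => Fr G (tc (v 0) k σ)}
  | .nul, v => {G | Fr G (⨅ k, pruned (tc (v 0) k) ⊓ nullV (tc (v 0) k)) ↔
      ∀ k, (Pruned fun σ => Fr G (tc (v 0) k σ)) ∧ Null fun σ => Fr G (tc (v 0) k σ)}
  | .nwd, v => {G | Fr G (⨅ k : ℕ, ⨅ n : ℕ, nwdV (tc (v 0) k) (tc (v 1) n)) ↔
      ∀ k n, Nwd (fun σ => Fr G (tc (v 0) k σ)) fun σ => Fr G (tc (v 1) n σ)}
  | .mem, v => {G | Fr G (⨆ k : ℕ, memV (rl (v 0)) (tc (v 1) k)) ↔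
      ∃ k, InCl (fun n => Fr G (rl (v 0) n)) fun σ => Fr G (tc (v 1) k σ)}

theorem Tra_ae (r : Tra_E) (v : ℕ → Nm P) : ∀ᶠ G in aeG P, G ∈ Tra_Ev r v := by
  cases r with
  | fat =>
    filter_upwards [ae_iInf fun n => Pool.Agent.Helper33.HM.fat (tc (v 0) n),
      eventually_countable_forall.2 fun n => ae_fat (tc (v 0) n)] with G h1 h2
    exact h1.trans (forall_congr' fun n => (h2 n).trans fat_iff)
  | prn =>
    filter_upwards [ae_iInf fun n => pruned (tc (v 0) n),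
      eventually_countable_forall.2 fun n => ae_pruned (tc (v 0) n)] with G h1 h2
    exact h1.trans (forall_congr' fun n => (h2 n).trans pruned_iff)
  | nul =>
    filter_upwards [ae_iInf fun n => pruned (tc (v 0) n) ⊓ nullV (tc (v 0) n),
      eventually_countable_forall.2 fun n => ae_pruned (tc (v 0) n),
      eventually_countable_forall.2 fun n => ae_nullV (tc (v 0) n)] with G h1 h2 h3
    exact h1.trans (forall_congr' fun n => fr_inf.trans
      (and_congr ((h2 n).trans pruned_iff) ((h3 n).trans nullV_iff)))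
  | nwd =>
    filter_upwards [ae_iInf fun k => ⨅ n : ℕ, nwdV (tc (v 0) k) (tc (v 1) n),
      eventually_countable_forall.2 fun k => ae_iInf fun n : ℕ => nwdV (tc (v 0) k) (tc (v 1) n),
      eventually_countable_forall.2 fun k => eventually_countable_forall.2 fun n =>
        ae_nwdV (tc (v 0) k) (tc (v 1) n)] with G h1 h2 h3
    exact h1.trans (forall_congr' fun k => (h2 k).trans
      (forall_congr' fun n => (h3 k n).trans nwdV_iff))
  | mem =>
    filter_upwards [ae_iSup fun k => memV (rl (v 0)) (tc (v 1) k),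
      eventually_countable_forall.2 fun k => ae_memV (rl (v 0)) (tc (v 1) k)] with G h1 h2
    exact h1.trans (exists_congr fun k => (h2 k).trans memV_iff)

omit [OrderTop P] in
theorem Tra_not_both {G : GF P} {U : RO P} (h1 : Fr G U) (h2 : Fr G Uᶜ) : False := by
  have h3 : Fr G (U ⊓ Uᶜ) := fr_inf.2 ⟨h1, h2⟩
  rw [inf_compl_eq_bot] at h3
  obtain ⟨p, -, hp⟩ := h3
  exact RO.not_mem_bot p hp

omit [OrderTop P] in
theorem Tra_exists_compl {U : RO P} {p : P} (h : ¬ p ∈ U) : ∃ q, q ≤ p ∧ q ∈ Uᶜ := by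
  by_contra hcon
  push Not at hcon
  apply h
  refine RO.mem_reg fun q hq => ?_
  have h1 := hcon q hq
  rw [RO.mem_compl] at h1
  push Not at h1
  exact h1

end Tra

/-- If the sentence has the value `⊤` in the algebra of regular open subsets of `P`, then it holds
in a countable transitive model of ZFC. -/
theorem exists_model {P : Type u} [Preorder P] [OrderTop P] (h : Val (RO P) = ⊤) :
    ∃ M : Set ZFSet.{0}, M.Countable ∧ IsTransModelZFC M ∧
      Sentence (realsP M) (setsP M) := by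
  obtain ⟨R₁, W₁, g, hch, hreq, hpt⟩ := exists_point (P := P) Tra_W Tra_Ev Tra_ae
  refine ⟨g.M, g.countable_M, zfc_of_ch g hch, ?_⟩
  have nmN : ∀ τ ∈ g.N, nm (rl τ) ∈ g.N := by
    intro τ hτ
    obtain ⟨k, hk | hk⟩ := hreq .r4 [τ] (by simpa using hτ)
    · obtain ⟨x, hx, hx'⟩ := hk
      have e : x = nm (rl τ) := hx'
      rw [← e]
      exact hx
    · exact absurd rfl (hk _ le_rfl (nm (rl τ)))
  have cdN : ∀ τ ∈ g.N, nm (cdV (tc τ)) ∈ g.N := by
    intro τ hτ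
    obtain ⟨k, hk | hk⟩ := hreq .r5 [τ] (by simpa using hτ)
    · obtain ⟨x, hx, hx'⟩ := hk
      have e : x = nm (cdV (tc τ)) := hx'
      rw [← e]
      exact hx
    · exact absurd rfl (hk _ le_rfl (nm (cdV (tc τ))))
  have fat_at : ∀ τ ∈ g.N, (Fr (pt g) (⨅ n, fat (tc τ n)) ↔
      ∀ n, Fat fun σ => Fr (pt g) (tc τ n σ)) := fun τ hτ => hpt .fat [τ] (by simpa using hτ)
  have prn_at : ∀ τ ∈ g.N, (Fr (pt g) (⨅ n, pruned (tc τ n)) ↔
      ∀ n, Pruned fun σ => Fr (pt g) (tc τ n σ)) := fun τ hτ => hpt .prn [τ] (by simpa using hτ)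
  have nul_at : ∀ τ ∈ g.N, (Fr (pt g) (⨅ n, pruned (tc τ n) ⊓ nullV (tc τ n)) ↔
      ∀ n, (Pruned fun σ => Fr (pt g) (tc τ n σ)) ∧ Null fun σ => Fr (pt g) (tc τ n σ)) :=
    fun τ hτ => hpt .nul [τ] (by simpa using hτ)
  have nwd_at : ∀ τ ∈ g.N, ∀ ρ ∈ g.N,
      (Fr (pt g) (⨅ k : ℕ, ⨅ n : ℕ, nwdV (tc τ k) (tc ρ n)) ↔
      ∀ k n, Nwd (fun σ => Fr (pt g) (tc τ k σ)) fun σ => Fr (pt g) (tc ρ n σ)) :=
    fun τ hτ ρ hρ => hpt .nwd [τ, ρ] (by simpa using ⟨hτ, hρ⟩)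
  have mem_at : ∀ τ ∈ g.N, ∀ ρ ∈ g.N,
      (Fr (pt g) (⨆ k : ℕ, memV (rl τ) (tc ρ k)) ↔
      ∃ k, InCl (fun n => Fr (pt g) (rl τ n)) fun σ => Fr (pt g) (tc ρ k σ)) :=
    fun τ hτ ρ hρ => hpt .mem [τ, ρ] (by simpa using ⟨hτ, hρ⟩)
  intro A hA hH
  obtain ⟨α, hα, hαA⟩ := hA
  have memA : ∀ z : ℕ → Prop, realP z ∈ g.val α → z ∈ A := by
    intro z hz
    rw [hαA, ZFSet.mem_range] at hz
    obtain ⟨x, hx⟩ := hz
    have h1 : x.1 = z := realP_inj hx
    rw [← h1]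
    exact x.2
  have memA' : ∀ z ∈ A, realP z ∈ g.val α := by
    intro z hz
    rw [hαA, ZFSet.mem_range]
    exact ⟨⟨z, hz⟩, rfl⟩
  -- the first claim
  have claim : ∃ k₀, ∀ q ≤ g.pc k₀, ∀ x, ¬ Tra_W .r1 (asg [α]) q x := by
    obtain ⟨k, hk⟩ := hreq .r1 [α] (by simpa using hα)
    rcases hk with ⟨x, hx, hx1, hx2⟩ | hk
    swap
    · exact ⟨k, hk⟩
    exfalso
    have hx2' : Fr (pt g) (⨆ F : ℕ → List Bool → RO P, (⨅ k : ℕ, pruned (F k)) ⊓
        covV (SE α) F ⊓ ⨅ k : ℕ, ⨅ n : ℕ, nwdV (F k) (tc x n))ᶜ := (fr_pt g).2 ⟨k, hx2⟩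
    have hT := (fat_at x hx).1 ((fr_pt g).2 ⟨k, hx1⟩)
    obtain ⟨F, hF, hF1, hF2, hF3⟩ := hH _ (cd_mem g (cdN x hx)) hT
    obtain ⟨σ, hσ, -, hσF, -⟩ := exists_name_of_real g hF
    have hσF' : ∀ k, (fun s => Fr (pt g) (tc σ k s)) = F k := by
      intro k
      funext s
      exact propext ((hσF _).trans cd_apply)
    obtain ⟨k2, hk2⟩ := hreq .r2 [α, σ] (by simpa using ⟨hα, hσ⟩)
    rcases hk2 with ⟨y, hy, hy1, hy2⟩ | hk2
    · -- a point of `A` outside of the union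
      have hy2' : Fr (pt g) (⨆ k : ℕ, memV (rl y) (tc σ k))ᶜ := (fr_pt g).2 ⟨k2, hy2⟩
      have h1 : fmem (nm (rl y)) α (g.pc k2) := mem_memv.1 hy1
      have h2 : g.val (nm (rl y)) ∈ g.val α := (g.mem_iff (nmN y hy) hα).1 ⟨k2, h1⟩
      rw [val_nm g (nmN y hy)] at h2
      obtain ⟨j, hj⟩ := hF2 _ (memA _ h2)
      refine Tra_not_both ((mem_at y hy σ hσ).2 ⟨j, ?_⟩) hy2'
      rw [hσF']
      exact hj
    · -- the union is a cover below a condition
      have hk2' : ∀ q ≤ g.pc k2, ∀ y, ¬ (q ∈ SE α (rl y) ∧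
          q ∈ (⨆ k : ℕ, memV (rl y) (tc σ k))ᶜ) := hk2
      have hcov : g.pc k2 ∈ covV (SE α) (tc σ) := by
        unfold covV
        rw [RO.mem_iInf]
        intro x
        rw [RO.mem_himp]
        intro q hq hqx
        by_contra hne
        obtain ⟨r, hr, hr'⟩ := Tra_exists_compl hne
        refine hk2' r (hr.trans hq) (nm x) ⟨?_, ?_⟩
        · rw [rl_nm]
          exact RO.mem_lower hr hqx
        · rw [rl_nm]
          exact hr'
      refine Tra_not_both (fr_mono (le_iSup _ (tc σ)) ?_) hx2'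
      refine fr_inf.2 ⟨fr_inf.2 ⟨(prn_at σ hσ).2 fun k => ?_, (fr_pt g).2 ⟨k2, hcov⟩⟩,
        (nwd_at σ hσ x hx).2 fun k n => ?_⟩
      · rw [hσF']
        exact hF1 k
      · rw [hσF']
        exact hF3 k n
  obtain ⟨k₀, hk₀⟩ := claim
  -- the hypothesis has the value `⊤` below a condition
  have hfat : g.pc k₀ ∈ fatPM (SE α) := by
    unfold fatPM
    rw [RO.mem_iInf]
    intro T
    rw [RO.mem_himp]
    intro q hq hqT
    by_contra hne
    obtain ⟨r, hr, hr'⟩ := Tra_exists_compl hne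
    have e : tc (nm (cdV T)) = T := funext fun n => tc_nm_cdV T n
    refine hk₀ r (hr.trans hq) (nm (cdV T)) ⟨?_, ?_⟩
    · rw [e]
      exact RO.mem_lower hr hqT
    · rw [e]
      exact hr'
  have hnull : g.pc k₀ ∈ nullCov (SE α) := by
    have h1 : Val (RO P) ≤ fatPM (SE α) ⇨ nullCov (SE α) :=
      iInf₂_le (SE α) (isSetName_SE α)
    rw [h, top_le_iff, himp_eq_top_iff] at h1
    exact h1 _ hfat
  -- the names of the null sets
  obtain ⟨k, hk⟩ := hreq .r3 [α] (by simpa using hα)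
  have hk' : ∃ x ∈ g.N, g.pc k ∈ (⨅ k : ℕ, pruned (tc x k) ⊓ nullV (tc x k)) ⊓
      covV (SE α) (tc x) := by
    rcases hk with hk | hk
    · exact hk
    · exfalso
      have h1 : g.pc (max k k₀) ∈ nullCov (SE α) :=
        RO.mem_lower (g.pc_le (le_max_right _ _)) hnull
      unfold nullCov at h1
      obtain ⟨r, hr, F, hF⟩ := RO.mem_iSup.1 h1 _ le_rfl
      have e : tc (nm (cdV F)) = F := funext fun n => tc_nm_cdV F n
      refine hk r (hr.trans (g.pc_le (le_max_left _ _))) (nm (cdV F)) ?_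
      change r ∈ (⨅ k : ℕ, pruned (tc (nm (cdV F)) k) ⊓ nullV (tc (nm (cdV F)) k)) ⊓
        covV (SE α) (tc (nm (cdV F)))
      rw [e]
      exact hF
  obtain ⟨x, hx, hx1⟩ := hk'
  have hx2 : Fr (pt g) ((⨅ k : ℕ, pruned (tc x k) ⊓ nullV (tc x k)) ⊓
      covV (SE α) (tc x)) := (fr_pt g).2 ⟨k, hx1⟩
  rw [fr_inf] at hx2
  refine ⟨fun n s => Fr (pt g) (tc x n s), cd_mem g (cdN x hx), (nul_at x hx).1 hx2.1, ?_⟩
  intro z hz
  have hz1 := memA' z hz
  have hz2 : realP z ∈ g.M := g.trans ⟨α, hα, rfl⟩ hz1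
  obtain ⟨τ, hτ, hτ1, hτ2, l, hl⟩ := exists_name_of_real g hz2
  obtain ⟨k', hk'⟩ := (g.mem_iff hτ hα).2 (by rw [hτ1]; exact hz1)
  have h1 : feq τ (nm (rl τ)) (g.pc l) := feq_nm hl
  have h2 : fmem (nm (rl τ)) α (g.pc (max l k')) :=
    fmem_congr_left (feq_mono h1 (g.pc_le (le_max_left _ _)))
      (fmem_mono hk' (g.pc_le (le_max_right _ _)))
  have h3 : Fr (pt g) (SE α (rl τ)) := (fr_pt g).2 ⟨_, mem_memv.2 h2⟩
  have h4 : Fr (pt g) (SE α (rl τ) ⇨ ⨆ k : ℕ, memV (rl τ) (tc x k)) :=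
    fr_mono (iInf_le _ (rl τ)) hx2.2
  have h5 : Fr (pt g) (⨆ k : ℕ, memV (rl τ) (tc x k)) :=
    fr_mono himp_inf_le (fr_inf.2 ⟨h4, h3⟩)
  obtain ⟨j, hj⟩ := (mem_at τ hτ x hx).1 h5
  refine ⟨j, ?_⟩
  have e : (fun n => Fr (pt g) (rl τ n)) = z := funext fun n => propext (hτ2 n)
  rw [e] at hj
  exact hj

end Pool.Agent.Helper32.HB
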