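import Pool.Agent.Helper33.HM.Exists
import Pool.Agent.Helper12.HM.MainCore
import Pool.Agent.Helper5.HM.NullCover
import Pool.Agent.Helper8.HM.Reals
import Pool.Agent.Helper53.HM.MaxPrinciple
import Pool.Agent.Helper71.HM.ValTopCore

/-!
# The sentence has the value `⊤` for the Hechler iteration
-/

set_option autoImplicit false

namespace Pool.Agent.Helper32.HB

open Pool.Agent.Helper33.HM

theorem val_hechler : Val (RO (Cond Ordinal.{0})) = ⊤ := by
  obtain ⟨I⟩ := exists_hiter
  exact h71_val_eq_top (h71_core I (max_principle I.ccc) (closing I)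
    (fun E hE α hw x => main_core I E hE α hw x) (null_cover I))

end Pool.Agent.Helper32.HB
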